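import Pool.Agent.KS6_76.TFX.Main

/-!
# MP_7161f1_al, Q1: Thompson's group F and a whole closure class of groups around it are Cayley
position-faithful (one-tape) linear-time computable

* `FG` (file `Pool.Graph.R_seed8.R652.TF.Defs`): Thompson's group `F`, given by its standard finite
  presentation `⟨x0, x1 | [x0 x1⁻¹, x0⁻¹ x1 x0], [x0 x1⁻¹, x0⁻² x1 x0²]⟩`.
* `PrintedGroup` (file `Pool.Agent.KS6_76.TFX.Main`): the group with the presentation printed in the
  problem file, which has `x0⁻¹ x1` in place of `x0 x1⁻¹` (a misprint: this group is `ℤ²`).
* `CayleyAutomaticFunctions G S` (same file as `FG`): there are a finite alphabet, a language `L`,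
  a bijection `ψ : L → G` and for every `s ∈ S` an automatic function `f s`, computed in linear
  time by a position-faithful one-tape Turing machine, with `ψ (f s w) = ψ w * s` for `w ∈ L`.
* `ThompsonClass` (file `Pool.Agent.KS6_76.TFX.Main`): the smallest class of groups which contains
  `F` and is closed under subgroups and isomorphic copies, overgroups of finite index, direct
  products and free products of finite families.
-/

namespace Pool.Agent.Results.MP_7161f1_al.OneTapeClosureClass

open Pool.Agent.R652.TF Pool.Agent.KS6_76.TFX

/-- Every group of the smallest class of groups that contains Thompson's group `F` and is closed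
under embedded subgroups, overgroups of finite index, direct products and finite free products is
Cayley position-faithful (one-tape) linear-time computable, with respect to every set of its
elements. In particular so is `F` (which is finitely generated), and so is the group whose
presentation is printed in the problem file. -/
theorem result :
    (∀ (G : Type) (hG : Group G), ThompsonClass G hG →
      ∀ S : Set G, CayleyAutomaticFunctions G S) ∧
    ThompsonClass FG inferInstance ∧
    (∃ S : Set FG, S.Finite ∧ Submonoid.closure S = ⊤) ∧
    ThompsonClass PrintedGroup inferInstance :=
  ⟨fun _ _ h S => h.nf.cayley S, ThompsonClass.thompson,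
    ⟨{g0, g1, g0⁻¹, g1⁻¹}, by simp, Pool.Agent.R652.TF.closure_top⟩, class_printed⟩

end Pool.Agent.Results.MP_7161f1_al.OneTapeClosureClass
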